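import Pool.Agent.Helper91.LC.Defs

/-!
# Project LC, piece LC-8b: the weighted circle average
-/

namespace Pool.Agent.Helper42.LC

open Complex Metric Set Real

theorem mean_div_sq {g : ℂ → ℂ} {r : ℝ} (hr : 0 < r) (hg : DifferentiableOn ℂ g (closedBall 0 r)) :
    Real.circleAverage (fun v => g v / v ^ 2) 0 r = (deriv (deriv g) 0) / 2 := by
  rw [Real.circleAverage_eq_circleIntegral hr.ne']
  have h := hg.circleIntegral_one_div_sub_center_pow_smul hr 2
  have e : (∮ z in C(0, r), (z - 0)⁻¹ • (g z / z ^ 2)) =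
      ∮ z in C(0, r), (1 / (z - 0) ^ (2 + 1)) • g z := by
    refine circleIntegral.integral_congr hr.le (fun z hz => ?_)
    have hz0 : z ≠ 0 := by
      rintro rfl
      simp at hz
      exact hr.ne' hz.symm
    simp only [sub_zero, smul_eq_mul]
    field_simp
    ring
  rw [e, h, iteratedDeriv_succ, iteratedDeriv_one]
  have hpi : (π : ℂ) ≠ 0 := by exact_mod_cast Real.pi_ne_zero
  simp only [smul_eq_mul, Nat.factorial]
  push_cast
  field_simp [Complex.I_ne_zero]

theorem mean_holo {g : ℂ → ℂ} {r : ℝ} (hr : 0 < r) (hg : DifferentiableOn ℂ g (closedBall 0 r)) :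
    Real.circleAverage g 0 r = g 0 := by
  have h : DiffContOnCl ℂ g (ball 0 |r|) := by
    rw [abs_of_pos hr]
    exact (hg.mono closure_ball_subset_closedBall).diffContOnCl
  exact h.circleAverage

/-- the weighted mean `1 + cos 2θ`. -/
theorem mean_W {g : ℂ → ℂ} {ρ : ℝ} (hρ : 0.3 < ρ) (hg : DifferentiableOn ℂ g (ball 0 ρ)) :
    Real.circleAverage (fun v => (1 + (v ^ 2).re / 0.09) * (g v).re) 0 0.3 =
      (g 0).re + 0.09 / 4 * (deriv (deriv g) 0).re := by
  have hr : (0 : ℝ) < 0.3 := by norm_num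
  have hg' : DifferentiableOn ℂ g (closedBall 0 0.3) := by
    refine hg.mono (closedBall_subset_ball ?_)
    simpa using hρ
  have hgc : ContinuousOn g (sphere 0 0.3) := hg'.continuousOn.mono sphere_subset_closedBall
  have hne : ∀ z ∈ sphere (0 : ℂ) 0.3, z ≠ 0 := by
    rintro z hz rfl
    simp at hz
    norm_num at hz
  set G1 : ℂ → ℂ := fun v => (1 + v ^ 2 / 0.18) * g v with hG1
  set G2 : ℂ → ℂ := fun v => g v / v ^ 2 with hG2
  have d1 : DifferentiableOn ℂ G1 (closedBall 0 0.3) := by
    intro z hz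
    refine DifferentiableWithinAt.mul ?_ (hg' z hz)
    fun_prop
  have c1 : ContinuousOn G1 (sphere 0 0.3) := d1.continuousOn.mono sphere_subset_closedBall
  have c2 : ContinuousOn G2 (sphere 0 0.3) := by
    refine hgc.div (by fun_prop) ?_
    intro z hz
    exact pow_ne_zero _ (hne z hz)
  have c2' : ContinuousOn (fun v => (0.045 : ℂ) * G2 v) (sphere 0 0.3) :=
    continuousOn_const.mul c2
  have i1 : CircleIntegrable G1 0 0.3 := c1.circleIntegrable (by norm_num)
  have i2 : CircleIntegrable (fun v => (0.045 : ℂ) * G2 v) 0 0.3 := c2'.circleIntegrable (by norm_num)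
  have key : Real.circleAverage (fun v => (1 + (v ^ 2).re / 0.09) * (g v).re) 0 0.3 =
      Real.circleAverage (Complex.reCLM ∘ (fun v => G1 v + (0.045 : ℂ) * G2 v)) 0 0.3 := by
    refine Real.circleAverage_congr_sphere (fun z hz => ?_)
    have habs : |(0.3 : ℝ)| = 0.3 := abs_of_pos hr
    rw [habs] at hz
    have hz0 := hne z hz
    have hn : Complex.normSq z = 0.09 := by
      have : ‖z‖ = 0.3 := by simpa using hz
      rw [Complex.normSq_eq_norm_sq, this]
      norm_num
    have hinv : (g z / z ^ 2) = g z * (starRingEnd ℂ z) ^ 2 / (0.0081 : ℝ) := by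
      have h1 : z * starRingEnd ℂ z = ((0.09 : ℝ) : ℂ) := by
        rw [Complex.mul_conj, hn]
      have h2 : z ^ 2 * (starRingEnd ℂ z) ^ 2 = ((0.0081 : ℝ) : ℂ) := by
        rw [← mul_pow, h1]
        norm_cast
        norm_num
      rw [div_eq_div_iff (pow_ne_zero _ hz0) (by norm_cast; norm_num), ← h2]
      ring
    simp only [Function.comp, Complex.reCLM_apply, hG1, hG2]
    rw [hinv]
    have e1 : ((0.045 : ℂ) * (g z * (starRingEnd ℂ z) ^ 2 / (0.0081 : ℝ))) =
        ((0.045 / 0.0081 : ℝ) : ℂ) * (g z * (starRingEnd ℂ z) ^ 2) := by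
      push_cast
      ring
    have e2 : (1 + z ^ 2 / 0.18) * g z = g z + ((1 / 0.18 : ℝ) : ℂ) * (z ^ 2 * g z) := by
      push_cast
      ring
    rw [e1, e2, Complex.add_re, Complex.add_re, Complex.re_ofReal_mul, Complex.re_ofReal_mul]
    simp only [pow_two, Complex.mul_re, Complex.mul_im, Complex.conj_re, Complex.conj_im]
    ring
  have i12 : CircleIntegrable (fun v => G1 v + (0.045 : ℂ) * G2 v) 0 0.3 := i1.add i2
  rw [key, ContinuousLinearMap.circleAverage_comp_comm _ i12,
    Real.circleAverage_fun_add i1 i2, mean_holo hr d1]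
  have h3 : Real.circleAverage (fun v => (0.045 : ℂ) * G2 v) 0 0.3 =
      0.045 * (deriv (deriv g) 0 / 2) := by
    have := Real.circleAverage_fun_smul (f := G2) (c := 0) (R := 0.3) (a := (0.045 : ℂ))
    simp only [smul_eq_mul] at this
    rw [this, mean_div_sq hr hg']
  rw [h3]
  simp only [hG1, Complex.reCLM_apply, Complex.add_re]
  have e4 : ((0.045 : ℂ) * (deriv (deriv g) 0 / 2)) = ((0.0225 : ℝ) : ℂ) * deriv (deriv g) 0 := by
    push_cast
    ring
  rw [e4, Complex.re_ofReal_mul]
  norm_num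

end Pool.Agent.Helper42.LC
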